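import Pool.Agent.H83.PN.FinN

/-!
# Countable choice for `Π¹_n` sets of reals does not imply countable choice for `Π¹_(n+1)` sets

For every `n ≥ 1` there is a binary relation `E` on the natural numbers such that `(ℕ, E)` satisfies
all axioms of ZF, and in this model countable choice holds for sequences of nonempty boldface `Π¹_n`
sets of reals, but fails for some sequence of nonempty boldface `Π¹_(n+1)` sets of reals. All notions
are interpreted inside the model: see the modules `Pool.Agent.H83.AC.Fml` (formulas, satisfaction, ZF),
`Pool.Agent.H83.AC.Stmt` (pairs, functions, real numbers, countable choice) and
`Pool.Agent.H83.PN.StmtN` (the projective classes).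

The model for `n ≥ 2` is (isomorphic to) a symmetric extension of a countable transitive model of ZF and
`V = L`. The forcing adds real numbers which are eventually different from the real numbers of blocks
`F_γ`, `γ < ω₁`, of mutually Cohen generic real numbers; the sequence of the blocks is constructed in `L`
in such a way that it is generic for all statements of the projective level `n - 1` about the forcing.
-/

namespace Pool.Agent.Results.MP_eeb582_lc.AllProjectiveLevels

open H83.AC H83.PN

theorem result (n : ℕ) (hn : 1 ≤ n) : ∃ E : ℕ → ℕ → Prop,
    IsZF E ∧ ACom E (IsPi E n 0) ∧ ¬ ACom E (IsPi E (n + 1) 0) :=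
  separation_all n hn

end Pool.Agent.Results.MP_eeb582_lc.AllProjectiveLevels
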